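import Pool.Agent.J4H97.MT.Sqrt

/-!
# A multivariate trace inequality for positive operators

For every `n` there is `c > 0` with `L(A₁,…,Aₙ) ≥ c R(A₁,…,Aₙ)` for all positive semidefinite
matrices `A₁,…,Aₙ` of every size.
-/

open Matrix
open scoped ComplexOrder MatrixOrder

namespace Pool.Agent.Results.MP_ebd556_mp.MultivariateTraceInequality

open Pool.Agent.J4H97.MT

/-- `L(A₁,…,Aₙ) = Tr √(∑ Aⱼ²) - ∑ Tr Aⱼ`. -/
noncomputable def L {n d : ℕ} (A : Fin n → Matrix (Fin d) (Fin d) ℂ) : ℝ :=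
  (trace (CFC.sqrt (∑ j, A j ^ 2))).re - ∑ j, (trace (A j)).re

/-- `R(A₁,…,Aₙ) = ∑_{j<k} (‖Aⱼ - A_k‖₁ - Tr (Aⱼ + A_k))`, where `‖X‖₁ = Tr |X|` and
`|X| = √(X* X)`. -/
noncomputable def R {n d : ℕ} (A : Fin n → Matrix (Fin d) (Fin d) ℂ) : ℝ :=
  ∑ q ∈ (Finset.univ : Finset (Fin n × Fin n)).filter (fun q => q.1 < q.2),
    ((trace (CFC.abs (A q.1 - A q.2))).re - (trace (A q.1 + A q.2)).re)

lemma sum_pairs {n : ℕ} (f : Fin n → Fin n → ℝ) (hf : ∀ j k, f j k = f k j) :
    ∑ j, ∑ k ∈ Finset.univ.erase j, f j k =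
      2 * ∑ q ∈ (Finset.univ : Finset (Fin n × Fin n)).filter (fun q => q.1 < q.2),
        f q.1 q.2 := by
  have h1 : ∑ j, ∑ k ∈ Finset.univ.erase j, f j k =
      ∑ q ∈ (Finset.univ : Finset (Fin n × Fin n)).filter (fun q => q.1 ≠ q.2), f q.1 q.2 := by
    rw [Finset.sum_filter, ← Finset.univ_product_univ, Finset.sum_product]
    refine Finset.sum_congr rfl fun j _ => ?_
    rw [← Finset.sum_filter]
    refine Finset.sum_congr ?_ fun _ _ => rfl
    ext k
    simp [Finset.mem_erase, ne_comm]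
  have h2 : (Finset.univ : Finset (Fin n × Fin n)).filter (fun q => q.1 ≠ q.2) =
      (Finset.univ : Finset (Fin n × Fin n)).filter (fun q => q.1 < q.2) ∪
      (Finset.univ : Finset (Fin n × Fin n)).filter (fun q => q.2 < q.1) := by
    ext q
    simp only [Finset.mem_union, Finset.mem_filter, Finset.mem_univ, true_and]
    exact lt_or_lt_iff_ne.symm
  have h3 : Disjoint ((Finset.univ : Finset (Fin n × Fin n)).filter (fun q => q.1 < q.2))
      ((Finset.univ : Finset (Fin n × Fin n)).filter (fun q => q.2 < q.1)) := by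
    rw [Finset.disjoint_filter]
    intro q _ h h'
    exact lt_asymm h h'
  have h4 : ∑ q ∈ (Finset.univ : Finset (Fin n × Fin n)).filter (fun q => q.2 < q.1), f q.1 q.2 =
      ∑ q ∈ (Finset.univ : Finset (Fin n × Fin n)).filter (fun q => q.1 < q.2), f q.1 q.2 := by
    refine Finset.sum_nbij' (fun q => (q.2, q.1)) (fun q => (q.2, q.1)) ?_ ?_ ?_ ?_ ?_
    · intro q hq; simpa using hq
    · intro q hq; simpa using hq
    · intro q _; rfl
    · intro q _; rfl
    · intro q _; exact hf _ _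
  rw [h1, h2, Finset.sum_union h3, h4]
  ring

/-- For every number `n` of operators there is a constant `c > 0`, independent of the dimension
and of the operators, with `L(A₁,…,Aₙ) ≥ c R(A₁,…,Aₙ)`. -/
theorem result (n : ℕ) : ∃ c : ℝ, 0 < c ∧
    ∀ (d : ℕ) (A : Fin n → Matrix (Fin d) (Fin d) ℂ), (∀ j, (A j).PosSemidef) →
      c * R A ≤ L A := by
  set C : ℝ := 4 * (n : ℝ) ^ 2 * (4 * 16 ^ n) ^ 2 with hC
  refine ⟨C + 1, by positivity, fun d A hA => ?_⟩
  have hherm : ∀ j k, (A j - A k).IsHermitian := fun j k =>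
    (hA j).isHermitian.sub (hA k).isHermitian
  obtain ⟨α, h1, h2⟩ := main_proj A hA (fun j k => tst (hherm j k)) (fun j k => tst_proj _)
  have hE : ∀ j k, rt (A k * tst (hherm j k)) + rt (A j * (1 - tst (hherm j k))) =
      -(1 / 2) * (rt (CFC.abs (A j - A k)) - rt (A j + A k)) := by
    intro j k
    rw [pair_eq (hherm j k)]; ring
  have hsym : ∀ j k, -(1 / 2) * (rt (CFC.abs (A j - A k)) - rt (A j + A k)) =
      -(1 / 2) * (rt (CFC.abs (A k - A j)) - rt (A k + A j)) := by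
    intro j k
    rw [← CFC.abs_neg (A j - A k), neg_sub, add_comm (A j)]
  have hRsum : ∑ j, ∑ k ∈ Finset.univ.erase j,
      (rt (A k * tst (hherm j k)) + rt (A j * (1 - tst (hherm j k)))) = - R A := by
    simp only [hE]
    rw [sum_pairs _ hsym, ← Finset.mul_sum]
    unfold R rt
    ring
  have hRneg : R A ≤ 0 := by
    have : 0 ≤ ∑ j, ∑ k ∈ Finset.univ.erase j,
        (rt (A k * tst (hherm j k)) + rt (A j * (1 - tst (hherm j k)))) :=
      Finset.sum_nonneg fun j _ => Finset.sum_nonneg fun k _ =>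
        add_nonneg (rt_mul_nonneg (hA k) (tst_proj _).posSemidef)
          (rt_mul_nonneg (hA j) (tst_proj _).compl.posSemidef)
    linarith
  have hps : (∑ j, A j ^ 2).PosSemidef := by
    refine posSemidef_sum _ fun j _ => ?_
    have := posSemidef_conjTranspose_mul_self (A j)
    rwa [(hA j).isHermitian.eq, ← pow_two] at this
  have hsq := trace_sqrt_ge hA h1 (T := CFC.sqrt (∑ j, A j ^ 2)) (CFC.sqrt_nonneg _).posSemidef
    (CFC.sqrt_mul_sqrt_self _ hps.nonneg)
  have h3 : ∑ j, rt (A j * (1 - α j)) = ∑ j, rt (A j) - ∑ j, rt (A j * α j) := by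
    rw [← Finset.sum_sub_distrib]
    refine Finset.sum_congr rfl fun j _ => ?_
    rw [mul_sub, rt_sub, Matrix.mul_one]
  rw [hRsum, h3, Fintype.card_fin, ← hC] at h2
  have hL : L A = rt (CFC.sqrt (∑ j, A j ^ 2)) - ∑ j, rt (A j) := rfl
  rw [hL]
  nlinarith

end Pool.Agent.Results.MP_ebd556_mp.MultivariateTraceInequality
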